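import Mathlib

/-! The distribution function recursion of the noisy min-max game on the binary tree. -/

open Filter Topology

namespace Pool.Agent.H.MP_a87fbc_pr

noncomputable def T (G : ℤ → ℝ) (k : ℤ) : ℝ := (1 - (G k + G (k + 1)) / 2) ^ 2

def I (G : ℤ → ℝ) : Prop := ∀ k, 0 ≤ G k ∧ G k ≤ 1

lemma I.T {G : ℤ → ℝ} (h : I G) : I (T G) := fun k => by
  unfold Pool.Agent.H.MP_a87fbc_pr.T
  exact ⟨sq_nonneg _, by nlinarith [h k, h (k + 1)]⟩

lemma anti {F G : ℤ → ℝ} (hG : I G) {k j : ℤ} (h : F k + F (k + 1) ≤ G j + G (j + 1)) :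
    T G j ≤ T F k := pow_le_pow_left₀ (by linarith [hG j, hG (j + 1)]) (by linarith) 2

def Pat (F G : ℤ → ℝ) : Prop := ∀ i j, i < j → G i < F i → G j ≤ F j

lemma Pat.T {F G : ℤ → ℝ} (hF : I F) (hG : I G) (h : Pat F G) : Pat (T G) (T F) := fun i j l s => by
  have s' : G i + G (i + 1) < F i + F (i + 1) := lt_of_not_ge fun c => (anti hG c).not_gt s
  refine anti hF ?_
  by_cases c : G i < F i
  · linarith [h i j l c, h i (j + 1) (by omega) c]
  · have c' : G (i + 1) < F (i + 1) := by linarith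
    have := h (i + 1) (j + 1) (by omega) c'
    rcases eq_or_lt_of_le (show i + 1 ≤ j from l) with rfl | l'
    · linarith
    · linarith [h (i + 1) j l' c']

noncomputable def a : ℕ → ℤ → ℝ
  | 0, k => if 0 ≤ k then 1 else 0
  | n + 1, k => T (T (a n)) (k - 1)

lemma aI (n : ℕ) : I (a n) := by
  induction n with
  | zero => intro k; simp only [a]; split_ifs <;> simp
  | succ n ih => exact fun k => ih.T.T _

lemma refl (n : ℕ) : ∀ k, a n (-2 - k) ≤ T (a n) k ∧ T (a n) k ≤ a n (-1 - k) := by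
  induction n with
  | zero =>
    intro k
    simp only [a, T]
    split_ifs <;> first | omega | norm_num
  | succ n ih =>
    have h : ∀ k, T (a n) (-1 - k) ≤ a (n + 1) k ∧ a (n + 1) k ≤ T (a n) (-2 - k) := fun k => by
      have p := ih (k - 1)
      have q := ih (k - 1 + 1)
      constructor
      · refine anti (aI n) ?_
        rw [show -1 - k + 1 = -1 - (k - 1) by ring, show -1 - k = -1 - (k - 1 + 1) + 0 by ring]
        linarith [show a n (-1 - (k - 1 + 1) + 0) = a n (-1 - (k - 1 + 1)) by simp]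
      · refine anti (aI n).T ?_
        rw [show -2 - k + 1 = -2 - (k - 1) by ring, show -2 - k = -2 - (k - 1 + 1) + 0 by ring]
        linarith [show a n (-2 - (k - 1 + 1) + 0) = a n (-2 - (k - 1 + 1)) by simp]
    intro k
    have p := h k
    have q := h (k + 1)
    constructor
    · refine anti (aI n).T ?_
      rw [sub_add_cancel, show -2 - k - 1 = -2 - (k + 1) by ring]
      linarith
    · refine anti (aI (n + 1)) ?_
      rw [sub_add_cancel, show -1 - k - 1 = -1 - (k + 1) by ring]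
      linarith

lemma mid (n : ℕ) : a n (-1) ≤ 1 / 2 ∧ 1 / 4 ≤ a n 0 := by
  have h := refl n (-1)
  norm_num [T] at h
  have := aI n (-1)
  have := aI n 0
  constructor <;> nlinarith

/-- equilibria -/
def Eq (e : ℤ → ℝ) : Prop := ∀ k, 0 < e k ∧ e k < 1 ∧ e (k + 1) = 2 * √(e k) - e k

lemma exists_eq {g : ℝ} (h0 : 0 < g) (h1 : g < 1) (c : ℤ) : ∃ e, Eq e ∧ e c = g := by
  let s : Equiv.Perm (Set.Ioo (0 : ℝ) 1) :=
    { toFun := fun p => ⟨1 - (1 - √p.1) ^ 2, by
        have := Real.sqrt_pos.2 p.2.1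
        have := (Real.sqrt_lt' one_pos).2 (show p.1 < 1 ^ 2 by simpa using p.2.2)
        constructor <;> nlinarith⟩
      invFun := fun p => ⟨(1 - √(1 - p.1)) ^ 2, by
        have := Real.sqrt_pos.2 (sub_pos.2 p.2.2)
        have := (Real.sqrt_lt' one_pos).2 (show 1 - p.1 < 1 ^ 2 by simpa using p.2.1)
        constructor <;> nlinarith⟩
      left_inv := fun p => Subtype.ext (by
        have := Real.sqrt_le_one.2 p.2.2.le
        simp only [sub_sub_cancel, Real.sqrt_sq (sub_nonneg.2 this), Real.sq_sqrt p.2.1.le])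
      right_inv := fun p => Subtype.ext (by
        have := Real.sqrt_le_one.2 (show 1 - p.1 ≤ 1 by linarith [p.2.1])
        simp only [sub_sub_cancel, Real.sqrt_sq (sub_nonneg.2 this),
          Real.sq_sqrt (sub_pos.2 p.2.2).le]) }
  refine ⟨fun k => ((s ^ (k - c)) ⟨g, h0, h1⟩).1, fun k => ⟨((s ^ (k - c)) ⟨g, h0, h1⟩).2.1,
    ((s ^ (k - c)) ⟨g, h0, h1⟩).2.2, ?_⟩, by simp⟩
  simp only
  rw [show k + 1 - c = 1 + (k - c) by ring, zpow_one_add, Equiv.Perm.mul_apply]
  generalize (s ^ (k - c)) ⟨g, h0, h1⟩ = p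
  show 1 - (1 - √p.1) ^ 2 = _
  nlinarith [Real.sq_sqrt p.2.1.le]

lemma Eq.I {e : ℤ → ℝ} (h : Eq e) : I e := fun k => ⟨(h k).1.le, (h k).2.1.le⟩

lemma Eq.fix {e : ℤ → ℝ} (h : Eq e) (k : ℤ) : T (T e) (k - 1) = e k := by
  have t : ∀ k, T e k = 1 - e (k + 1) := fun k => by
    rw [T, (h k).2.2]; nlinarith [Real.sq_sqrt (h k).1.le]
  rw [T, t, t, sub_add_cancel, (h k).2.2]
  nlinarith [Real.sq_sqrt (h k).1.le]

lemma Eq.pat {e : ℤ → ℝ} (h : Eq e) (n : ℕ) : Pat (a n) e := by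
  induction n with
  | zero =>
    intro i j l s
    simp only [a] at s ⊢
    split_ifs at s ⊢ <;> first | omega | linarith [h i, h j]
  | succ n ih =>
    intro i j l s
    rw [← h.fix] at s ⊢
    exact (ih.T (aI n) h.I).T h.I.T (aI n).T (i - 1) (j - 1) (by omega) s

lemma Eq.up {e : ℤ → ℝ} (h : Eq e) (c : ℤ) (j : ℕ) : 1 - e (c + j) ≤ (1 - e c) ^ (j + 1) := by
  induction j with
  | zero => simp
  | succ j ih =>
    obtain ⟨p, q, r⟩ := h (c + j)
    have := Real.sq_sqrt p.le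
    have u := Real.sqrt_le_one.2 q.le
    have w := Real.sqrt_nonneg (e (c + j))
    have hc := h c
    have : (1 - e c) ^ (j + 1) ≤ 1 - e c := pow_le_of_le_one (by linarith) (by linarith) (by omega)
    rw [pow_succ, Nat.cast_succ, ← add_assoc, r]
    have : 1 - (2 * √(e (c + j)) - e (c + j)) ≤ (1 - e (c + j)) ^ 2 := by
      nlinarith [mul_nonneg (mul_nonneg w (sub_nonneg.2 u)) (sub_nonneg.2 u)]
    nlinarith

lemma Eq.down {e : ℤ → ℝ} (h : Eq e) (c : ℤ) (j : ℕ) : e (c - j) ≤ e c ^ (j + 1) := by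
  induction j with
  | zero => simp
  | succ j ih =>
    obtain ⟨p, q, r⟩ := h (c - (j + 1 : ℕ))
    rw [show c - (j + 1 : ℕ) + 1 = c - j by push_cast; ring] at r
    have := Real.sq_sqrt p.le
    have u := Real.sqrt_le_one.2 q.le
    have w := Real.sqrt_nonneg (e (c - (j + 1 : ℕ)))
    have hc := h c
    have hj := h (c - j)
    have : e c ^ (j + 1) ≤ e c := pow_le_of_le_one (by linarith) (by linarith) (by omega)
    have : e (c - (j + 1 : ℕ)) ≤ e (c - j) ^ 2 := by
      have : √(e (c - (j + 1 : ℕ))) ≤ e (c - j) := by nlinarith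
      nlinarith
    rw [pow_succ]
    nlinarith

lemma tight {t : ℝ} (ht : 0 < t) : ∃ y : ℕ, ∀ n, (∀ k : ℤ, y ≤ k → 1 - t ≤ a n k) ∧
    ∀ k : ℤ, k ≤ -y → a n k ≤ t := by
  obtain ⟨j, hj⟩ := exists_pow_lt_of_lt_one ht (show (7 / 8 : ℝ) < 1 by norm_num)
  obtain ⟨e, he, e0⟩ := exists_eq (show (0 : ℝ) < 1 / 8 by norm_num) (by norm_num) 0
  obtain ⟨f, hf, f0⟩ := exists_eq (show (0 : ℝ) < 7 / 8 by norm_num) (by norm_num) (-1)
  have p : ∀ i : ℕ, j ≤ i → (7 / 8 : ℝ) ^ (i + 1) ≤ t := fun i l =>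
    (pow_le_pow_of_le_one (by norm_num) (by norm_num) (by omega)).trans hj.le
  refine ⟨j + 2, fun n => ⟨fun k l => ?_, fun k l => ?_⟩⟩
  · obtain ⟨i, rfl⟩ := Int.eq_ofNat_of_zero_le (show 0 ≤ k by omega)
    have := he.pat n 0 i (by omega) (by linarith [(mid n).2])
    have u := he.up 0 i
    rw [zero_add, e0] at u
    norm_num at u
    linarith [p i (by omega)]
  · obtain ⟨i, hi⟩ := Int.eq_ofNat_of_zero_le (show 0 ≤ -1 - k by omega)
    have : a n k ≤ f k := le_of_not_gt fun c => by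
      linarith [hf.pat n k (-1) (by omega) c, (mid n).1]
    have u := hf.down (-1) i
    rw [f0, show -1 - (i : ℤ) = k by omega] at u
    linarith [p i (by omega)]

lemma sub {U : ℤ → ℝ} (hU : I U) (hs : ∀ k, U k ≤ T (T U) (k - 1)) {y : ℤ}
    (hy : ∀ k, y ≤ k → 81 / 100 ≤ U k) (k : ℤ) : U (k + 1) ≤ 2 * √(U k) - U k := by
  let m : ℤ → ℝ := fun x => (U x + U (x + 1)) / 2
  have m0 : ∀ x, 0 ≤ m x := fun x => by simp only [m]; linarith [hU x, hU (x + 1)]
  have m1 : ∀ x, m x ≤ 1 := fun x => by simp only [m]; linarith [hU x, hU (x + 1)]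
  have v1 : ∀ x, √(U x) ≤ 1 := fun x => Real.sqrt_le_one.2 (hU x).2
  have v0 : ∀ x, 0 ≤ √(U x) := fun x => Real.sqrt_nonneg _
  have key : ∀ x, (m x - √(U x)) * (m x + √(U x)) ≤
      (m (x + 1) - √(U (x + 1))) * (2 - √(U (x + 1)) - m (x + 1)) := fun x => by
    have e : √(U (x + 1)) ≤ 1 - ((1 - m x) ^ 2 + (1 - m (x + 1)) ^ 2) / 2 := by
      have t := hs (x + 1)
      rw [add_sub_cancel_right] at t
      exact Real.sqrt_le_iff.2 ⟨by nlinarith [m0 x, m1 x, m0 (x + 1), m1 (x + 1)], t⟩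
    have a := Real.sq_sqrt (hU x).1
    have b := Real.sq_sqrt (hU (x + 1)).1
    have c : 2 * m x = U x + U (x + 1) := by simp only [m]; ring
    nlinarith
  have s : ∀ x, y ≤ x → 3 / 2 ≤ m x + √(U x) := fun x l => by
    have := Real.le_sqrt_of_sq_le (show (9 / 10 : ℝ) ^ 2 ≤ U x by linarith [hy x l])
    simp only [m]; linarith [hy x l, hy (x + 1) (by omega)]
  have half : ∀ n : ℕ, ∀ x, y ≤ x → m x - √(U x) ≤ (1 / 2) ^ n := fun n => by
    induction n with
    | zero => exact fun x _ => by linarith [m1 x, v0 x]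
    | succ n ih =>
      intro x l
      have k := key x
      have := ih (x + 1) (by omega)
      have := s (x + 1) (by omega)
      have := s x l
      have : (0 : ℝ) < (1 / 2) ^ n := by positivity
      have := m1 (x + 1)
      have := v1 (x + 1)
      rw [pow_succ]
      by_contra c
      have : (m (x + 1) - √(U (x + 1))) * (2 - √(U (x + 1)) - m (x + 1)) ≤ (1 / 2) ^ n * (1 / 2) := by
        nlinarith
      nlinarith
  have dn : ∀ n : ℕ, ∀ x, y - n ≤ x → m x ≤ √(U x) := fun n => by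
    induction n with
    | zero => exact fun x l => sub_nonpos.1 (ge_of_tendsto'
        (tendsto_pow_atTop_nhds_zero_of_lt_one (by norm_num) one_half_lt_one)
        fun n => half n x (by simpa using l))
    | succ n ih =>
      intro x l
      have k := key x
      have := ih (x + 1) (by omega)
      have := m1 (x + 1)
      have := v1 (x + 1)
      have := m0 x
      have := v0 x
      by_contra c
      nlinarith
  have := dn (y - k).toNat k (by omega)
  simp only [m] at this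
  linarith

lemma ratio {p q r : ℝ} (hr : 1 ≤ r) (p0 : 0 ≤ p) (p1 : p ≤ 1) (q0 : 0 ≤ q) (q1 : q ≤ 1)
    (h : p ≤ r * q) : 2 * √p - p ≤ r * (2 * √q - q) := by
  have a := Real.sq_sqrt p0
  have b := Real.sq_sqrt q0
  have := Real.sqrt_le_one.2 p1
  have := Real.sqrt_le_one.2 q1
  have := Real.sqrt_nonneg p
  have := Real.sqrt_nonneg q
  generalize √p = u at *
  generalize √q = s at *
  subst a b
  rcases le_total u s with c | c
  · nlinarith [mul_nonneg (sub_nonneg.2 hr) (show 0 ≤ 2 * s - s ^ 2 by nlinarith)]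
  · have : u ≤ r * s :=
      abs_le_of_sq_le_sq' (by nlinarith [mul_nonneg (sub_nonneg.2 hr) (mul_nonneg (by linarith :
        0 ≤ r) (sq_nonneg s))]) (by positivity) |>.2
    nlinarith

lemma mem {r s x : ℝ} (r1 : 1 ≤ r) (r2 : r ≤ 2) (s0 : 0 ≤ s) (hs : 6 * s ≤ r - 1) (x1 : x ≤ 1)
    (h : r * (2 * s - s ^ 2) ≤ x) : r * s ^ 2 ≤ (1 - (1 + (1 - x / 2) ^ 2) / 2) ^ 2 := by
  have a : r * s * (1 - 3 * s / 2) ≤ 1 - (1 + (1 - x / 2) ^ 2) / 2 := by
    have b : 0 ≤ r * (2 * s - s ^ 2) := by nlinarith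
    have c : (1 - x / 2) ^ 2 ≤ (1 - r * (2 * s - s ^ 2) / 2) ^ 2 :=
      pow_le_pow_left₀ (by linarith) (by linarith) 2
    have d : 0 ≤ r * s ^ 2 := by positivity
    nlinarith [mul_nonneg d (sub_nonneg.2 r2), mul_nonneg (mul_nonneg d s0) (show 0 ≤ r * (4 - s) by nlinarith)]
  refine le_trans ?_ (pow_le_pow_left₀ (by have : 0 ≤ 1 - 3 * s / 2 := by linarith
                                           positivity) a 2)
  have : 1 ≤ r * (1 - 3 * s / 2) ^ 2 := by nlinarith
  nlinarith [mul_nonneg (by linarith : 0 ≤ r) (sq_nonneg s)]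

noncomputable def U (k : ℤ) : ℝ := limsup (a · k) atTop

lemma bd (k : ℤ) : IsBoundedUnder (· ≤ ·) atTop (a · k) :=
  isBoundedUnder_of ⟨1, fun n => (aI n k).2⟩

lemma bd' (k : ℤ) : IsBoundedUnder (· ≥ ·) atTop (a · k) :=
  isBoundedUnder_of ⟨0, fun n => (aI n k).1⟩

lemma U_ge {k : ℤ} {c : ℝ} (h : ∀ n, c ≤ a n k) : c ≤ U k :=
  le_limsup_of_frequently_le (.of_forall h) (bd k)

lemma U_le {k : ℤ} {c : ℝ} (h : ∀ᶠ n in atTop, a n k ≤ c) : U k ≤ c :=
  limsup_le_of_le (bd' k).isCoboundedUnder_le h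

lemma UI : I U := fun k => ⟨U_ge fun n => (aI n k).1, U_le (.of_forall fun n => (aI n k).2)⟩

lemma U_sub (k : ℤ) : U k ≤ T (T U) (k - 1) := by
  let W : ℝ → ℤ → ℝ := fun t j => min (U j + t) 1
  have c : Continuous fun t => T (T (W t)) (k - 1) := by simp only [T, W]; fun_prop
  have e : W 0 = U := funext fun j => by simp [W, (UI j).2]
  have := c.tendsto 0
  rw [e] at this
  refine ge_of_tendsto (this.mono_left (nhdsWithin_le_nhds (s := Set.Ioi 0))) ?_
  filter_upwards [self_mem_nhdsWithin] with t (ht : 0 < t)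
  have w : ∀ j, ∀ᶠ n in atTop, a n j ≤ W t j := fun j =>
    (eventually_lt_of_limsup_lt (show U j < U j + t by linarith) (bd j)).mono fun n h =>
      le_min h.le (aI n j).2
  have WI : I (W t) := fun j => ⟨le_min (by linarith [(UI j).1]) zero_le_one, min_le_right _ _⟩
  obtain ⟨N, hN⟩ := eventually_atTop.1 ((w (k - 1)).and ((w (k - 1 + 1)).and (w (k - 1 + 1 + 1))))
  refine U_le (eventually_atTop.2 ⟨N + 1, fun n l => ?_⟩)
  obtain ⟨n, rfl⟩ := Nat.exists_eq_add_of_le' (show 1 ≤ n by omega)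
  obtain ⟨p, q, r⟩ := hN n (by omega)
  exact anti (aI n).T (add_le_add (anti WI (add_le_add p q)) (anti WI (add_le_add q r)))

lemma U_step (k : ℤ) : U (k + 1) ≤ 2 * √(U k) - U k := by
  obtain ⟨y, hy⟩ := tight (show (0 : ℝ) < 19 / 100 by norm_num)
  exact sub UI U_sub (y := y) (fun k l => U_ge fun n => by linarith [(hy n).1 k l]) k

lemma low (k : ℤ) {g : ℝ} (hg : g < U k) : ∀ᶠ n in atTop, g ≤ a n k := by
  rcases le_or_gt g 0 with g0 | g0
  · exact .of_forall fun n => g0.trans (aI n k).1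
  obtain ⟨e, he, ek⟩ := exists_eq g0 (hg.trans_le (UI k).2) k
  obtain ⟨r, r1, r2, hr⟩ : ∃ r : ℝ, 1 < r ∧ r ≤ 2 ∧ r * g < U k := by
    obtain ⟨r, h1, h2⟩ := exists_between (show 1 < min 2 (U k / g) from
      lt_min one_lt_two ((one_lt_div g0).2 hg))
    exact ⟨r, h1, (h2.trans_le (min_le_left _ _)).le, (lt_div_iff₀ g0).1 (h2.trans_le (min_le_right _ _))⟩
  have h1 : ∀ j : ℕ, r * e (k - j) < U (k - j) := fun j => by
    induction j with
    | zero => simpa [ek] using hr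
    | succ j ih =>
      by_contra c
      have := ratio r1.le (UI _).1 (UI _).2 (he.I _).1 (he.I _).2 (not_lt.1 c)
      have u := U_step (k - (j + 1 : ℕ))
      rw [← (he _).2.2, show k - (j + 1 : ℕ) + 1 = k - j by push_cast; ring] at *
      linarith
  obtain ⟨J, hJ⟩ := exists_pow_lt_of_lt_one (show 0 < ((r - 1) / 6) ^ 2 by
    have := sub_pos.2 r1; positivity) (he k).2.1
  have h2 : ∀ j : ℕ, J ≤ j → 6 * √(e (k - j)) ≤ r - 1 := fun j l => by
    have := Real.sqrt_le_iff.2 ⟨show 0 ≤ (r - 1) / 6 by linarith, (he.down k j).trans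
      ((pow_le_pow_of_le_one (he.I k).1 (he.I k).2 (by omega)).trans hJ.le)⟩
    linarith
  obtain ⟨N, hN⟩ := (frequently_lt_of_lt_limsup (bd' _).isCoboundedUnder_le (h1 J)).exists
  have h3 : ∀ j : ℕ, r * e (k - (J + j : ℕ)) ≤ a (N + j) (k - (J + j : ℕ)) := fun j => by
    induction j with
    | zero => exact hN.le
    | succ j ih =>
      set x := k - (J + (j + 1) : ℕ) with hx
      rw [show k - (J + j : ℕ) = x + 1 by rw [hx]; push_cast; ring, (he x).2.2] at ih
      have := mem r1.le r2 (Real.sqrt_nonneg _) (h2 (J + (j + 1)) (by omega)) (aI (N + j) (x + 1)).2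
        (by rwa [← hx, Real.sq_sqrt (he.I x).1])
      rw [← hx, Real.sq_sqrt (he.I x).1] at this
      refine this.trans ?_
      have i := aI (N + j)
      have t1 := (i.T (x - 1)).2
      have t2 : T (a (N + j)) (x - 1 + 1) ≤ (1 - a (N + j) (x + 1) / 2) ^ 2 := by
        rw [sub_add_cancel]
        exact pow_le_pow_left₀ (by linarith [i x, i (x + 1)]) (by linarith [i x]) 2
      show _ ≤ (1 - (T (a (N + j)) (x - 1) + T (a (N + j)) (x - 1 + 1)) / 2) ^ 2
      exact pow_le_pow_left₀ (by nlinarith [i (x + 1)]) (by linarith) 2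
  refine eventually_atTop.2 ⟨N + 1, fun n l => ?_⟩
  obtain ⟨j, rfl⟩ := Nat.exists_eq_add_of_le (show N ≤ n by omega)
  rw [← ek]
  refine he.pat _ (k - (J + j : ℕ)) k (by omega) (lt_of_lt_of_le ?_ (h3 j))
  nlinarith [(he (k - (J + j : ℕ))).1]

lemma conv (k : ℤ) : Tendsto (a · k) atTop (𝓝 (U k)) :=
  tendsto_order.2 ⟨fun g h => let ⟨c, p, q⟩ := exists_between h
    (low k q).mono fun _ l => p.trans_le l, fun _ h => eventually_lt_of_limsup_lt h (bd k)⟩

lemma U_top : Tendsto U atTop (𝓝 1) := tendsto_order.2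
  ⟨fun g h => by
    obtain ⟨y, hy⟩ := tight (half_pos (sub_pos.2 h))
    exact eventually_atTop.2 ⟨y, fun k l => by linarith [U_ge fun n => (hy n).1 k l]⟩,
  fun g h => .of_forall fun k => (UI k).2.trans_lt h⟩

lemma U_bot : Tendsto U atBot (𝓝 0) := tendsto_order.2
  ⟨fun g h => .of_forall fun k => h.trans_le (UI k).1, fun g h => by
    obtain ⟨y, hy⟩ := tight (half_pos h)
    exact eventually_atBot.2 ⟨-y, fun k l => by
      linarith [U_le (.of_forall fun n => (hy n).2 k l)]⟩⟩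

end Pool.Agent.H.MP_a87fbc_pr
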