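import Pool.Agent.H.MP_a87fbc_pr.A

/-! The law of the value of the noisy min-max game on the binary tree converges. -/

open Filter Topology MeasureTheory ProbabilityTheory Set

namespace Pool.Agent.H.MP_a87fbc_pr

def V (X : List Bool → ℤ) : ℕ → List Bool → ℤ
  | 0, _ => 0
  | t + 1, v =>
    if Even v.length then
      max (X (false :: v) + V X t (false :: v)) (X (true :: v) + V X t (true :: v))
    else min (X (false :: v) + V X t (false :: v)) (X (true :: v) + V X t (true :: v))

variable {Ω : Type*} [mΩ : MeasurableSpace Ω] {P : Measure Ω} [IsProbabilityMeasure P]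
  {X : List Bool → Ω → ℤ}

/-- events determined by the cookies in `S` -/
def M (X : List Bool → Ω → ℤ) (S : Set (List Bool)) : MeasurableSpace Ω :=
  ⨆ i ∈ S, MeasurableSpace.comap (X i) inferInstance

omit mΩ in
lemma mX {S : Set (List Bool)} {v : List Bool} (h : v ∈ S) : Measurable[M X S] (X v) :=
  Measurable.of_comap_le (le_iSup₂_of_le v h le_rfl)

omit mΩ in
lemma mV {S : Set (List Bool)} (t : ℕ) : ∀ v : List Bool, (∀ c l, l ++ c :: v ∈ S) →
    Measurable[M X S] fun ω => V (X · ω) t v := by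
  letI := M X S
  induction t with
  | zero => exact fun _ _ => measurable_const
  | succ t ih =>
    intro v h
    have y : ∀ c, Measurable fun ω => X (c :: v) ω + V (X · ω) t (c :: v) := fun c =>
      (mX (h c [])).add (ih _ fun d l => by simpa using h c (l ++ [d]))
    simp only [V]
    split_ifs
    exacts [(y _).max (y _), (y _).min (y _)]

lemma ind (hm : ∀ v, Measurable (X v)) (hi : iIndepFun X P) {S S' : Set (List Bool)}
    (h : Disjoint S S') {A B : Set Ω} (hA : MeasurableSet[M X S] A) (hB : MeasurableSet[M X S'] B) :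
    P.real (A ∩ B) = P.real A * P.real B := by
  simp only [Measure.real, ← ENNReal.toReal_mul]
  rw [(Indep_iff _ _ _).1 (indep_iSup_of_disjoint (fun i => (hm i).comap_le) hi.iIndep h) A B hA hB]

lemma M_le (hm : ∀ v, Measurable (X v)) (S : Set (List Bool)) : M X S ≤ mΩ :=
  iSup₂_le fun i _ => (hm i).comap_le

lemma edge (hm : ∀ v, Measurable (X v)) (hi : iIndepFun X P)
    (h1 : ∀ v, P.real {ω | X v ω = 1} = 1 / 2) (h2 : ∀ v, P.real {ω | X v ω = -1} = 1 / 2)
    (t : ℕ) (v : List Bool) (x : ℤ) : P.real {ω | X v ω + V (X · ω) t v ≤ x} =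
      (P.real {ω | V (X · ω) t v ≤ x - 1} + P.real {ω | V (X · ω) t v ≤ x + 1}) / 2 := by
  have d : Disjoint {v} {w | ∃ c l, l ++ c :: v = w} := disjoint_singleton_left.2 fun ⟨c, l, h⟩ => by
    have := congrArg List.length h
    simp at this; omega
  have a : ∀ s : ℤ, MeasurableSet[M X {v}] {ω | X v ω = s} := fun s =>
    mX (mem_singleton v) (measurableSet_singleton s)
  have b : ∀ y : ℤ, MeasurableSet[M X {w | ∃ c l, l ++ c :: v = w}] {ω | V (X · ω) t v ≤ y} :=
    fun y => mV t v (fun c l => by exact ⟨c, l, rfl⟩) (measurableSet_Iic (a := y))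
  have dj : Disjoint {ω | X v ω = 1} {ω | X v ω = -1} := disjoint_left.2 fun ω p q => by
    simp only [mem_ofPred_eq] at p q; omega
  have ae : ∀ᵐ ω ∂P, X v ω = 1 ∨ X v ω = -1 := by
    have : P.real ({ω | X v ω = 1} ∪ {ω | X v ω = -1}) = 1 := by
      rw [measureReal_union dj (M_le hm _ _ (a _)), h1, h2]; norm_num
    exact (mem_ae_iff_prob_eq_one ((M_le hm _ _ (a _)).union (M_le hm _ _ (a _)))).2
      ((ENNReal.toReal_eq_one_iff _).1 this)
  rw [measureReal_congr (t := {ω | X v ω = 1} ∩ {ω | V (X · ω) t v ≤ x - 1} ∪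
    {ω | X v ω = -1} ∩ {ω | V (X · ω) t v ≤ x + 1}) (ae.mono fun ω h => propext (by
      show X v ω + _ ≤ x ↔ X v ω = 1 ∧ _ ≤ x - 1 ∨ X v ω = -1 ∧ _ ≤ x + 1
      omega)), measureReal_union (dj.mono inter_subset_left inter_subset_left)
    ((M_le hm _ _ (a _)).inter (M_le hm _ _ (b _))), ind hm hi d (a _) (b _),
    ind hm hi d (a _) (b _), h1, h2]
  ring

lemma law (hm : ∀ v, Measurable (X v)) (hi : iIndepFun X P)
    (h1 : ∀ v, P.real {ω | X v ω = 1} = 1 / 2) (h2 : ∀ v, P.real {ω | X v ω = -1} = 1 / 2) (n : ℕ) :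
    ∀ (v : List Bool) (x : ℤ), Even v.length → P.real {ω | V (X · ω) (2 * n) v ≤ x} = a n (x / 2) := by
  have d : ∀ v : List Bool, Disjoint {w | false :: v <:+ w} {w | true :: v <:+ w} := fun v =>
    disjoint_left.2 fun w p q => by
      simpa using (List.suffix_of_suffix_length_le p q (by simp)).eq_of_length (by simp)
  have y : ∀ t c v x, MeasurableSet[M X {w | c :: v <:+ w}]
      {ω | X (c :: v) ω + V (X · ω) t (c :: v) ≤ x} := fun t c v x =>
    (mX (S := {w | c :: v <:+ w}) (List.suffix_refl _)).add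
      (mV t _ fun d l => ⟨l ++ [d], by simp⟩) (measurableSet_Iic (a := x))
  induction n with
  | zero =>
    intro v x _
    by_cases h : 0 ≤ x
    · simp [V, a, h, show 0 ≤ x / 2 by omega]
    · simp [V, a, h, show ¬ 0 ≤ x / 2 by omega]
  | succ n ih =>
    have mn : ∀ (v : List Bool) (x : ℤ), ¬ Even v.length →
        P.real {ω | V (X · ω) (2 * n + 1) v ≤ x} = 1 - T (a n) ((x - 1) / 2) := fun v x hv => by
      have e : ∀ c, P.real {ω | X (c :: v) ω + V (X · ω) (2 * n) (c :: v) ≤ x}ᶜ =
          1 - (a n ((x - 1) / 2) + a n ((x - 1) / 2 + 1)) / 2 := fun c => by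
        rw [probReal_compl_eq_one_sub (M_le hm _ _ (y _ c v x)),
          edge hm hi h1 h2, ih (c :: v) _ (Nat.even_add_one.2 hv), ih (c :: v) _ (Nat.even_add_one.2 hv),
          show (x + 1) / 2 = (x - 1) / 2 + 1 by omega]
      have f := ind hm hi (d v) (y (2 * n) false v x).compl
        (y (2 * n) true v x).compl
      have g := probReal_compl_eq_one_sub (μ := P)
        (M_le hm _ _ (mV (2 * n + 1) v (fun _ _ => mem_univ _) (measurableSet_Iic (a := x))))
      have k : ((fun ω => V (X · ω) (2 * n + 1) v) ⁻¹' Iic x)ᶜ =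
          {ω | X (false :: v) ω + V (X · ω) (2 * n) (false :: v) ≤ x}ᶜ ∩
          {ω | X (true :: v) ω + V (X · ω) (2 * n) (true :: v) ≤ x}ᶜ := by
        ext ω; simp [V, hv]
      rw [k, f.trans (congrArg₂ _ (e false) (e true)), ← sq] at g
      exact eq_sub_of_add_eq (by rw [T, g]; exact add_sub_cancel _ _)
    intro v x hv
    have e : ∀ c, P.real {ω | X (c :: v) ω + V (X · ω) (2 * n + 1) (c :: v) ≤ x} =
        1 - (T (a n) (x / 2 - 1) + T (a n) (x / 2 - 1 + 1)) / 2 := fun c => by
      rw [edge hm hi h1 h2, mn _ _ (by simpa [Nat.even_add_one]), mn _ _ (by simpa [Nat.even_add_one]),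
        show (x - 1 - 1) / 2 = x / 2 - 1 by omega, show (x + 1 - 1) / 2 = x / 2 - 1 + 1 by omega]
      ring
    have f := ind hm hi (d v) (y (2 * n + 1) false v x)
      (y (2 * n + 1) true v x)
    have k : {ω | V (X · ω) (2 * n + 1 + 1) v ≤ x} =
        {ω | X (false :: v) ω + V (X · ω) (2 * n + 1) (false :: v) ≤ x} ∩
        {ω | X (true :: v) ω + V (X · ω) (2 * n + 1) (true :: v) ≤ x} := by
      ext ω; rw [mem_ofPred_eq, V, if_pos hv]; simp
    rw [mul_add, mul_one, show 2 * n + 2 = 2 * n + 1 + 1 from rfl, k,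
      f.trans (congrArg₂ _ (e false) (e true)), ← sq]
    rfl

theorem main (hm : ∀ v, Measurable (X v)) (hi : iIndepFun X P)
    (h1 : ∀ v, P.real {ω | X v ω = 1} = 1 / 2) (h2 : ∀ v, P.real {ω | X v ω = -1} = 1 / 2) :
    ∃ μ : ProbabilityMeasure ℤ,
      TendstoInDistribution (fun n ω => V (X · ω) (2 * n) []) atTop id (fun _ => P) μ := by
  have L := fun n x => law hm hi h1 h2 n [] x (by simp)
  have c : ∀ x : ℤ, Tendsto (fun n => P.real {ω | V (X · ω) (2 * n) [] ≤ x}) atTop (𝓝 (U (x / 2))) :=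
    fun x => by simpa only [L] using conv (x / 2)
  have mo : Monotone fun x : ℤ => U (x / 2) := fun x y l => le_of_tendsto_of_tendsto' (c x) (c y)
    fun n => measureReal_mono fun ω h => le_trans h l
  let f : StieltjesFunction ℝ := ⟨fun x => U (⌊x⌋ / 2), mo.comp Int.floor_mono, fun x =>
    (tendsto_pure_nhds (fun k : ℤ => U (k / 2)) ⌊x⌋).comp (tendsto_floor_right_pure_floor x)⟩
  have pf : IsProbabilityMeasure f.measure := f.isProbabilityMeasure
    (U_bot.comp ((tendsto_atBot.2 fun b => eventually_atBot.2 ⟨2 * b, fun k l => by omega⟩ :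
      Tendsto (fun k : ℤ => k / 2) atBot atBot).comp tendsto_floor_atBot))
    (U_top.comp ((tendsto_atTop.2 fun b => eventually_atTop.2 ⟨2 * b, fun k l => by omega⟩ :
      Tendsto (fun k : ℤ => k / 2) atTop atTop).comp tendsto_floor_atTop))
  have mv : ∀ n, Measurable fun ω => V (X · ω) (2 * n) [] := fun n =>
    (mV _ _ fun _ _ => mem_univ _).mono (M_le hm _) le_rfl
  refine ⟨⟨f.measure.map Int.ceil, Measure.isProbabilityMeasure_map Int.measurable_ceil.aemeasurable⟩,
    fun n => (mv n).aemeasurable, aemeasurable_id, ?_⟩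
  refine (isPiSystem_Ioc (id : ℤ → ℤ) id).tendsto_probabilityMeasure_of_tendsto_of_mem
    (fun _ _ => .of_discrete) (fun u _ x hx => ⟨Ioc (x - 1) x, ⟨x - 1, x, by simp, rfl⟩,
      by simp, fun y hy => by obtain rfl : y = x := by simp at hy; omega
                              exact hx⟩) ?_
  rintro - ⟨i, j, l : i < j, rfl⟩
  rw [← NNReal.tendsto_coe]
  simp only [← ProbabilityMeasure.measureReal_eq_coe_coeFn, id, ProbabilityMeasure.coe_mk, Measure.map_id]
  rw [map_measureReal_apply Int.measurable_ceil .of_discrete, show Int.ceil ⁻¹' Ioc i j = Ioc (i : ℝ) j by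
    ext x; simp [Int.lt_ceil, Int.ceil_le], Measure.real, f.measure_Ioc,
    ENNReal.toReal_ofReal (sub_nonneg.2 (f.mono (Int.cast_le.2 l.le)))]
  simp only [f, Int.floor_intCast]
  refine ((c j).sub (c i)).congr fun n => ?_
  rw [map_measureReal_apply (mv n) .of_discrete, ← Iic_sdiff_Iic, preimage_sdiff,
    measureReal_sdiff (preimage_mono (Iic_subset_Iic.2 l.le)) (mv n .of_discrete)]
  rfl

end Pool.Agent.H.MP_a87fbc_pr
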